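import Mathlib

/-!
Orthonormal bases of exponentials in `L²(μ)` for a probability measure `μ` on the line, via the identity
`∑ |μ^(ξ - λ)|² = 1`.
-/

set_option autoImplicit false

open MeasureTheory Filter Topology
open scoped ComplexConjugate InnerProductSpace

namespace Pool.Agent.Q167.CN

/-- the exponential `x ↦ exp (-2 π i t x)` -/
noncomputable def e (t x : ℝ) : ℂ := Complex.exp (-(2 * Real.pi * t * x) * Complex.I)

theorem continuous_e (t : ℝ) : Continuous (e t) := by
  unfold e; fun_prop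

theorem norm_e (t x : ℝ) : ‖e t x‖ = 1 := by
  unfold e
  rw [show (-(2 * Real.pi * t * x) * Complex.I : ℂ) = ((-(2 * Real.pi * t * x) : ℝ) : ℂ) * Complex.I by
    push_cast; ring]
  exact Complex.norm_exp_ofReal_mul_I _

theorem memLp_e (μ : Measure ℝ) [IsProbabilityMeasure μ] (t : ℝ) : MemLp (e t) 2 μ := by
  refine MemLp.of_bound (continuous_e t).aestronglyMeasurable 1 ?_
  filter_upwards with x
  rw [norm_e]

/-- the exponential as an element of `L²(μ)` -/
noncomputable def E (μ : Measure ℝ) [IsProbabilityMeasure μ] (t : ℝ) : Lp ℂ 2 μ := (memLp_e μ t).toLp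

theorem coe_E (μ : Measure ℝ) [IsProbabilityMeasure μ] (t : ℝ) : (E μ t : ℝ → ℂ) =ᵐ[μ] e t :=
  (memLp_e μ t).coeFn_toLp

theorem inner_E (μ : Measure ℝ) [IsProbabilityMeasure μ] (s : ℝ) (f : Lp ℂ 2 μ) :
    ⟪E μ s, f⟫_ℂ = ∫ x, Complex.exp ((2 * Real.pi * s : ℝ) * x * Complex.I) * f x ∂μ := by
  rw [L2.inner_def]
  refine integral_congr_ae ?_
  filter_upwards [coe_E μ s] with x hx
  rw [hx, RCLike.inner_apply, mul_comm]
  congr 1
  unfold e
  rw [← Complex.exp_conj]
  congr 1
  simp only [map_mul, map_neg, Complex.conj_I, Complex.conj_ofReal, map_ofNat]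
  push_cast
  ring

theorem inner_E_E (μ : Measure ℝ) [IsProbabilityMeasure μ] (s t : ℝ) :
    ⟪E μ s, E μ t⟫_ℂ = charFun μ (2 * Real.pi * (s - t)) := by
  rw [inner_E, charFun_apply_real]
  refine integral_congr_ae ?_
  filter_upwards [coe_E μ t] with x hx
  rw [hx, e, ← Complex.exp_add]
  congr 1
  push_cast
  ring

theorem norm_E (μ : Measure ℝ) [IsProbabilityMeasure μ] (t : ℝ) : ‖E μ t‖ = 1 := by
  have h1 : ⟪E μ t, E μ t⟫_ℂ = 1 := by
    rw [inner_E_E, sub_self, mul_zero, charFun_zero]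
    simp
  have h3 : ‖E μ t‖ ^ 2 = 1 := by
    rw [@norm_sq_eq_re_inner ℂ, h1]
    simp
  nlinarith [norm_nonneg (E μ t)]

/-- a real integrable function whose transform vanishes is zero almost everywhere -/
theorem real_eq_zero (μ : Measure ℝ) [IsFiniteMeasure μ] (g : ℝ → ℝ) (hgm : Measurable g) (hg : Integrable g μ)
    (h : ∀ t : ℝ, ∫ x, Complex.exp (t * x * Complex.I) * (g x : ℂ) ∂μ = 0) : g =ᵐ[μ] 0 := by
  have hfin : ∀ f : ℝ → ℝ, Integrable f μ → IsFiniteMeasure (μ.withDensity fun x => ENNReal.ofReal (f x)) :=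
    fun f hf => isFiniteMeasure_withDensity_ofReal hf.2
  have hint : ∀ (f : ℝ → ℝ), Measurable f → Integrable f μ → ∀ t : ℝ,
      charFun (μ.withDensity fun x => ENNReal.ofReal (f x)) t =
        ∫ x, Complex.exp (t * x * Complex.I) * ((max (f x) 0 : ℝ) : ℂ) ∂μ := by
    intro f hf hfi t
    rw [charFun_apply_real, integral_withDensity_eq_integral_toReal_smul (by fun_prop)
      (by filter_upwards with x using ENNReal.ofReal_lt_top)]
    refine integral_congr_ae ?_
    filter_upwards with x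
    rw [ENNReal.toReal_ofReal', Complex.real_smul, mul_comm]
  have hi : ∀ (f : ℝ → ℝ), Integrable f μ → ∀ t : ℝ,
      Integrable (fun x : ℝ => Complex.exp (t * x * Complex.I) * ((f x : ℝ) : ℂ)) μ := by
    intro f hf t
    refine hf.ofReal.bdd_mul (c := 1) (by fun_prop) ?_
    filter_upwards with x
    rw [← Complex.ofReal_mul, Complex.norm_exp_ofReal_mul_I]
  have hneg : Integrable (fun x => - g x) μ := hg.neg
  have hpos' : Integrable (fun x => max (g x) 0) μ := hg.pos_part
  have hneg' : Integrable (fun x => max (- g x) 0) μ := hneg.pos_part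
  have heq : (μ.withDensity fun x => ENNReal.ofReal (g x)) = (μ.withDensity fun x => ENNReal.ofReal (- g x)) := by
    have := hfin g hg
    have := hfin _ hneg
    refine Measure.ext_of_charFun ?_
    ext t
    rw [hint g hgm hg t, hint (fun x => - g x) hgm.neg hneg t, ← sub_eq_zero, ← integral_sub (hi _ hpos' t) (hi _ hneg' t),
      ← h t]
    refine integral_congr_ae ?_
    filter_upwards with x
    rw [← mul_sub, ← Complex.ofReal_sub]
    congr 2
    rcases le_total 0 (g x) with h0 | h0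
    · rw [max_eq_left h0, max_eq_right (by linarith), sub_zero]
    · rw [max_eq_right h0, max_eq_left (by linarith)]; ring
  rw [withDensity_eq_iff (by fun_prop) (by fun_prop) ?_] at heq
  · filter_upwards [heq] with x hx
    rcases le_total 0 (g x) with h0 | h0
    · rw [ENNReal.ofReal_of_nonpos (by linarith : - g x ≤ 0), ENNReal.ofReal_eq_zero] at hx
      exact le_antisymm hx h0
    · rw [ENNReal.ofReal_of_nonpos h0, eq_comm, ENNReal.ofReal_eq_zero] at hx
      simp only [Pi.zero_apply]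
      linarith
  · exact (hg.lintegral_lt_top).ne

theorem eq_zero_of_inner (μ : Measure ℝ) [IsProbabilityMeasure μ] (f : Lp ℂ 2 μ)
    (h : ∀ t, ⟪E μ t, f⟫_ℂ = 0) : f = 0 := by
  have hf : Integrable f μ := (Lp.memLp f).integrable (by norm_num)
  have hfm : StronglyMeasurable (f : ℝ → ℂ) := Lp.stronglyMeasurable f
  have h1 : ∀ t : ℝ, ∫ x, Complex.exp (t * x * Complex.I) * f x ∂μ = 0 := by
    intro t
    have := h (t / (2 * Real.pi))
    rw [inner_E] at this
    rw [← this]
    congr 1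
    ext x
    congr 3
    have hpi := Real.pi_ne_zero
    congr 1
    rw [mul_div_cancel₀ _ (by positivity)]
  have h2 : ∀ t : ℝ, ∫ x, Complex.exp (t * x * Complex.I) * conj (f x) ∂μ = 0 := by
    intro t
    have h3 := congrArg conj (h1 (-t))
    rw [← integral_conj, map_zero] at h3
    rw [← h3]
    congr 1
    ext x
    rw [map_mul, ← Complex.exp_conj]
    congr 2
    simp only [map_mul, Complex.conj_I, Complex.conj_ofReal]
    push_cast
    ring
  have hb : ∀ (t : ℝ) (g : ℝ → ℂ), Integrable g μ →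
      Integrable (fun x : ℝ => Complex.exp (t * x * Complex.I) * g x) μ := by
    intro t g hg
    refine hg.bdd_mul (c := 1) (by fun_prop) ?_
    filter_upwards with x
    rw [← Complex.ofReal_mul, Complex.norm_exp_ofReal_mul_I]
  have hfc : Integrable (fun x => conj (f x)) μ := by
    have : Integrable (fun x => (RCLike.conjCLE (K := ℂ)) (f x)) μ :=
      (RCLike.conjCLE (K := ℂ)).toContinuousLinearMap.integrable_comp hf
    exact this
  have hre : (fun x => (f x).re) =ᵐ[μ] 0 := by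
    refine real_eq_zero μ _ hfm.measurable.re hf.re ?_
    intro t
    have : ∀ x : ℝ, Complex.exp (t * x * Complex.I) * (((f x).re : ℝ) : ℂ) =
        (1 / 2 : ℂ) * (Complex.exp (t * x * Complex.I) * f x + Complex.exp (t * x * Complex.I) * conj (f x)) := by
      intro x
      rw [Complex.re_eq_add_conj]; ring
    simp_rw [this]
    rw [integral_const_mul, integral_add (hb t _ hf) (hb t _ hfc), h1, h2]; simp
  have him : (fun x => (f x).im) =ᵐ[μ] 0 := by
    refine real_eq_zero μ _ hfm.measurable.im hf.im ?_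
    intro t
    have : ∀ x : ℝ, Complex.exp (t * x * Complex.I) * (((f x).im : ℝ) : ℂ) =
        (1 / (2 * Complex.I) : ℂ) * (Complex.exp (t * x * Complex.I) * f x - Complex.exp (t * x * Complex.I) * conj (f x)) := by
      intro x
      rw [Complex.im_eq_sub_conj]; ring
    simp_rw [this]
    rw [integral_const_mul, integral_sub (hb t _ hf) (hb t _ hfc), h1, h2]; simp
  rw [Lp.ext_iff]
  filter_upwards [hre, him, Lp.coeFn_zero ℂ 2 μ] with x hx hy hz
  rw [hz]
  exact Complex.ext hx hy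

/-- Bessel's equality at every exponential gives an orthonormal basis. -/
theorem exists_basis (μ : Measure ℝ) [IsProbabilityMeasure μ] (L : Set ℝ)
    (hL : ∀ ξ : ℝ, ∑' l : L, ENNReal.ofReal (‖charFun μ (2 * Real.pi * (l - ξ))‖ ^ 2) = 1) :
    ∃ b : HilbertBasis L ℂ (Lp ℂ 2 μ), ∀ l : L, (b l : ℝ → ℂ) =ᵐ[μ] e l := by
  classical
  have hc0 : charFun μ 0 = 1 := by rw [charFun_zero]; simp
  have horth : ∀ l l' : L, l ≠ l' → ⟪E μ l, E μ l'⟫_ℂ = 0 := by
    intro l l' hne
    have h1 := hL l'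
    have h2 : ∑ k ∈ ({l', l} : Finset L), ENNReal.ofReal (‖charFun μ (2 * Real.pi * (k - l'))‖ ^ 2) ≤ 1 := by
      rw [← h1]
      exact ENNReal.sum_le_tsum _
    rw [Finset.sum_pair hne.symm, sub_self, mul_zero, hc0] at h2
    have h3 : ENNReal.ofReal (‖charFun μ (2 * Real.pi * ((l : ℝ) - l'))‖ ^ 2) ≤ 0 := by
      have h4 : (1 : ENNReal) + ENNReal.ofReal (‖charFun μ (2 * Real.pi * ((l : ℝ) - l'))‖ ^ 2) ≤ 1 + 0 := by
        simpa using h2
      exact (ENNReal.add_le_add_iff_left ENNReal.one_ne_top).1 h4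
    have h5 := ENNReal.ofReal_eq_zero.1 (le_antisymm h3 bot_le)
    have h6 : ‖charFun μ (2 * Real.pi * ((l : ℝ) - l'))‖ = 0 := by
      have := norm_nonneg (charFun μ (2 * Real.pi * ((l : ℝ) - l')))
      nlinarith
    rw [inner_E_E]
    exact norm_eq_zero.1 h6
  have hon : Orthonormal ℂ fun l : L => E μ l := ⟨fun l => norm_E μ l, fun l l' hne => horth l l' hne⟩
  have hbot : (Submodule.span ℂ (Set.range fun l : L => E μ l))ᗮ = ⊥ := by
    rw [Submodule.eq_bot_iff]
    intro f hf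
    have hfl : ∀ l : L, ⟪E μ l, f⟫_ℂ = 0 := fun l =>
      (Submodule.mem_orthogonal _ _).1 hf _ (Submodule.subset_span ⟨l, rfl⟩)
    by_contra hf0
    have hnf : ‖f‖ ≠ 0 := norm_ne_zero_iff.2 hf0
    apply hf0
    refine eq_zero_of_inner μ f fun ξ => ?_
    -- the extended orthonormal family
    let g : Lp ℂ 2 μ := ((‖f‖⁻¹ : ℝ) : ℂ) • f
    have hg1 : ‖g‖ = 1 := by
      rw [norm_smul, Complex.norm_real, norm_inv, norm_norm, inv_mul_cancel₀ hnf]
    have hgl : ∀ l : L, ⟪E μ l, g⟫_ℂ = 0 := fun l => by rw [inner_smul_right, hfl, mul_zero]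
    have hgl' : ∀ l : L, ⟪g, E μ l⟫_ℂ = 0 := fun l => by rw [← inner_conj_symm, hgl, map_zero]
    let v : Option L → Lp ℂ 2 μ := fun o => o.elim g fun l => E μ l
    have hv : Orthonormal ℂ v := by
      constructor
      · rintro (_ | l)
        · exact hg1
        · exact norm_E μ l
      · rintro (_ | l) (_ | l') hne
        · exact absurd rfl hne
        · exact hgl' l'
        · exact hgl l
        · exact horth l l' fun h => hne (by rw [h])
    have hkey : ∀ s : Finset L, ‖⟪g, E μ ξ⟫_ℂ‖ ^ 2 + ∑ l ∈ s, ‖⟪E μ l, E μ ξ⟫_ℂ‖ ^ 2 ≤ 1 := by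
      intro s
      have h1 := hv.sum_inner_products_le (E μ ξ) (s := insert none (s.map Function.Embedding.some))
      rw [norm_E, one_pow, Finset.sum_insert (by simp), Finset.sum_map] at h1
      exact h1
    have hsum : (ENNReal.ofReal (‖⟪g, E μ ξ⟫_ℂ‖ ^ 2)) + 1 ≤ 1 := by
      have h0 := hL ξ
      rw [ENNReal.tsum_eq_iSup_sum] at h0
      calc ENNReal.ofReal (‖⟪g, E μ ξ⟫_ℂ‖ ^ 2) + 1
          = ENNReal.ofReal (‖⟪g, E μ ξ⟫_ℂ‖ ^ 2) +
            ⨆ s : Finset L, ∑ l ∈ s, ENNReal.ofReal (‖charFun μ (2 * Real.pi * (l - ξ))‖ ^ 2) := by rw [h0]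
        _ = ⨆ s : Finset L, (ENNReal.ofReal (‖⟪g, E μ ξ⟫_ℂ‖ ^ 2) +
            ∑ l ∈ s, ENNReal.ofReal (‖charFun μ (2 * Real.pi * (l - ξ))‖ ^ 2)) := ENNReal.add_iSup _
        _ ≤ 1 := by
          refine iSup_le fun s => ?_
          rw [← ENNReal.ofReal_sum_of_nonneg fun _ _ => sq_nonneg _, ← ENNReal.ofReal_add (sq_nonneg _)
            (Finset.sum_nonneg fun _ _ => sq_nonneg _), ← ENNReal.ofReal_one]
          refine ENNReal.ofReal_le_ofReal ?_
          have h1 := hkey s
          have h2 : ∀ l : L, ‖⟪E μ l, E μ ξ⟫_ℂ‖ ^ 2 = ‖charFun μ (2 * Real.pi * (l - ξ))‖ ^ 2 := fun l => by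
            rw [inner_E_E]
          simp_rw [h2] at h1
          exact h1
    have h3 : ENNReal.ofReal (‖⟪g, E μ ξ⟫_ℂ‖ ^ 2) ≤ 0 := by
      have h4 : ENNReal.ofReal (‖⟪g, E μ ξ⟫_ℂ‖ ^ 2) + 1 ≤ 0 + 1 := by simpa using hsum
      exact (ENNReal.add_le_add_iff_right ENNReal.one_ne_top).1 h4
    have h5 := ENNReal.ofReal_eq_zero.1 (le_antisymm h3 bot_le)
    have h6 : ‖⟪g, E μ ξ⟫_ℂ‖ = 0 := by
      have := norm_nonneg (⟪g, E μ ξ⟫_ℂ)
      nlinarith
    have h7 : ⟪g, E μ ξ⟫_ℂ = 0 := norm_eq_zero.1 h6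
    rw [inner_smul_left, mul_eq_zero] at h7
    rcases h7 with h7 | h7
    · rw [Complex.conj_ofReal, Complex.ofReal_eq_zero, inv_eq_zero] at h7
      exact absurd h7 hnf
    · rw [← inner_conj_symm, h7, map_zero]
  refine ⟨HilbertBasis.mkOfOrthogonalEqBot hon hbot, fun l => ?_⟩
  rw [HilbertBasis.coe_mkOfOrthogonalEqBot]
  exact coe_E μ l

end Pool.Agent.Q167.CN
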