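import Mathlib

set_option autoImplicit false

open MeasureTheory

namespace Pool.Agent.Q167.CN

/-- `(μ, Λ)` is a spectral pair: `Λ` is countable and the exponentials `x ↦ exp (-2 π i l x)` with `l ∈ Λ` form an
orthonormal (Hilbert) basis of `L²(μ)`. -/
def IsSpectralPair (μ : Measure ℝ) (Λ : Set ℝ) : Prop :=
  Λ.Countable ∧ ∃ b : HilbertBasis Λ ℂ (Lp ℂ 2 μ),
    ∀ l : Λ, (b l : ℝ → ℂ) =ᵐ[μ] fun x => Complex.exp (-(2 * Real.pi * (l : ℝ) * x) * Complex.I)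

end Pool.Agent.Q167.CN
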