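import Mathlib

/-!
The infinite product `H ξ = ∏ cos² (2 π ξ / 4^(k+1))`, the squared modulus of the Fourier transform of the
Jorgensen-Pedersen measure.
-/

set_option autoImplicit false

open Filter Topology Finset

namespace Pool.Agent.Q167.CN

/-- finite products -/
noncomputable def h (n : ℕ) (ξ : ℝ) : ℝ := ∏ k ∈ range n, Real.cos (2 * Real.pi * ξ / 4 ^ (k + 1)) ^ 2

theorem h_zero (ξ : ℝ) : h 0 ξ = 1 := by simp [h]

theorem h_succ (n : ℕ) (ξ : ℝ) : h (n + 1) ξ = h n ξ * Real.cos (2 * Real.pi * ξ / 4 ^ (n + 1)) ^ 2 := by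
  rw [h, h, prod_range_succ]

theorem h_nonneg (n : ℕ) (ξ : ℝ) : 0 ≤ h n ξ := prod_nonneg fun _ _ => sq_nonneg _

theorem h_le_one (n : ℕ) (ξ : ℝ) : h n ξ ≤ 1 :=
  prod_le_one (fun _ _ => sq_nonneg _) fun _ _ => Real.cos_sq_le_one _

theorem h_anti (ξ : ℝ) : Antitone fun n => h n ξ := by
  refine antitone_nat_of_succ_le fun n => ?_
  rw [h_succ]
  exact mul_le_of_le_one_right (h_nonneg n ξ) (Real.cos_sq_le_one _)

/-- the infinite product -/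
noncomputable def H (ξ : ℝ) : ℝ := ⨅ n, h n ξ

theorem tendsto_h (ξ : ℝ) : Tendsto (fun n => h n ξ) atTop (𝓝 (H ξ)) :=
  tendsto_atTop_ciInf (h_anti ξ) ⟨0, by rintro _ ⟨n, rfl⟩; exact h_nonneg n ξ⟩

theorem H_le_h (n : ℕ) (ξ : ℝ) : H ξ ≤ h n ξ :=
  ciInf_le ⟨0, by rintro _ ⟨n, rfl⟩; exact h_nonneg n ξ⟩ n

theorem H_nonneg (ξ : ℝ) : 0 ≤ H ξ := le_ciInf fun n => h_nonneg n ξ

theorem H_le_one (ξ : ℝ) : H ξ ≤ 1 := (H_le_h 0 ξ).trans (h_zero ξ).le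

theorem h_add (n m : ℕ) (ξ : ℝ) : h (n + m) ξ = h n ξ * h m (ξ / 4 ^ n) := by
  rw [h, prod_range_add, h, h]
  congr 1
  refine prod_congr rfl fun k _ => ?_
  congr 2
  rw [show n + k + 1 = n + (k + 1) by ring, pow_add]
  field_simp

theorem H_eq (n : ℕ) (ξ : ℝ) : H ξ = h n ξ * H (ξ / 4 ^ n) := by
  have h1 : Tendsto (fun m => h (n + m) ξ) atTop (𝓝 (H ξ)) := by
    have := (tendsto_h ξ).comp (tendsto_add_atTop_nat n)
    refine this.congr fun m => ?_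
    simp only [Function.comp]
    rw [add_comm]
  have h2 : Tendsto (fun m => h (n + m) ξ) atTop (𝓝 (h n ξ * H (ξ / 4 ^ n))) := by
    refine ((tendsto_h (ξ / 4 ^ n)).const_mul (h n ξ)).congr fun m => ?_
    rw [h_add]
  exact tendsto_nhds_unique h1 h2

theorem cos_sq_lower (x : ℝ) : 1 - x ^ 2 ≤ Real.cos x ^ 2 := by
  have h1 : Real.sin x ^ 2 ≤ x ^ 2 := by
    rw [← sq_abs (Real.sin x), ← sq_abs x]
    exact pow_le_pow_left₀ (abs_nonneg _) Real.abs_sin_le_abs 2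
  have h2 := Real.sin_sq_add_cos_sq x
  linarith

theorem h_lower (n : ℕ) : ∀ ξ : ℝ, 1 - 4 * Real.pi ^ 2 * ξ ^ 2 / 15 ≤ h n ξ := by
  induction n with
  | zero =>
    intro ξ
    rw [h_zero]
    have : 0 ≤ 4 * Real.pi ^ 2 * ξ ^ 2 / 15 := by positivity
    linarith
  | succ n ih =>
    intro ξ
    have h1 : h (n + 1) ξ = Real.cos (2 * Real.pi * ξ / 4) ^ 2 * h n (ξ / 4) := by
      rw [add_comm n 1, h_add, h_succ, h_zero]
      norm_num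
    rw [h1]
    have h2 := ih (ξ / 4)
    have h3 := cos_sq_lower (2 * Real.pi * ξ / 4)
    set a := (2 * Real.pi * ξ / 4) ^ 2 with ha
    set b := 4 * Real.pi ^ 2 * (ξ / 4) ^ 2 / 15 with hb
    have ha0 : 0 ≤ a := sq_nonneg _
    have hb0 : 0 ≤ b := by positivity
    have hab : 4 * Real.pi ^ 2 * ξ ^ 2 / 15 = a + b := by rw [ha, hb]; ring
    rw [hab]
    have hc0 : 0 ≤ Real.cos (2 * Real.pi * ξ / 4) ^ 2 := sq_nonneg _
    have hh0 := h_nonneg n (ξ / 4)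
    by_cases h4 : a ≤ 1
    · by_cases h5 : b ≤ 1
      · have : (1 - a) * (1 - b) ≤ Real.cos (2 * Real.pi * ξ / 4) ^ 2 * h n (ξ / 4) :=
          mul_le_mul h3 h2 (by linarith) hc0
        nlinarith
      · have : 0 ≤ Real.cos (2 * Real.pi * ξ / 4) ^ 2 * h n (ξ / 4) := mul_nonneg hc0 hh0
        push Not at h5
        linarith
    · have : 0 ≤ Real.cos (2 * Real.pi * ξ / 4) ^ 2 * h n (ξ / 4) := mul_nonneg hc0 hh0
      push Not at h4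
      linarith

theorem H_lower (ξ : ℝ) : 1 - 4 * Real.pi ^ 2 * ξ ^ 2 / 15 ≤ H ξ := le_ciInf fun n => h_lower n ξ

theorem H_lower' (ξ : ℝ) (hξ : |ξ| ≤ 3 / 8) : 1 / 2 ≤ H ξ := by
  have h1 := H_lower ξ
  have h2 : ξ ^ 2 ≤ (3 / 8) ^ 2 := by
    rw [← sq_abs]
    exact pow_le_pow_left₀ (abs_nonneg _) hξ 2
  have h3 : Real.pi ^ 2 ≤ 3.15 ^ 2 := pow_le_pow_left₀ Real.pi_pos.le Real.pi_lt_d2.le 2
  have h4 : Real.pi ^ 2 * ξ ^ 2 ≤ 3.15 ^ 2 * (3 / 8) ^ 2 := mul_le_mul h3 h2 (sq_nonneg _) (by positivity)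
  norm_num at h4
  linarith

theorem h_per (n : ℕ) (ξ : ℝ) (m : ℤ) : h n (ξ + 4 ^ n * m) = h n ξ := by
  rw [h, h]
  refine prod_congr rfl fun k hk => ?_
  congr 1
  have hk' : k + 1 ≤ n := mem_range.1 hk
  obtain ⟨d, hd⟩ := Nat.exists_eq_add_of_le hk'
  have : 2 * Real.pi * (ξ + 4 ^ n * m) / 4 ^ (k + 1) =
      2 * Real.pi * ξ / 4 ^ (k + 1) + ((4 ^ d * m : ℤ) : ℝ) * (2 * Real.pi) := by
    rw [hd, pow_add]
    push_cast
    field_simp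
  rw [this, Real.cos_add_int_mul_two_pi]

theorem h_split (n : ℕ) (ξ : ℝ) : h (n + 1) ξ + h (n + 1) (ξ + 4 ^ n) = h n ξ := by
  have h1 : h n (ξ + 4 ^ n) = h n ξ := by
    have := h_per n ξ 1
    simpa using this
  rw [h_succ, h_succ, h1]
  have h2 : 2 * Real.pi * (ξ + 4 ^ n) / 4 ^ (n + 1) = 2 * Real.pi * ξ / 4 ^ (n + 1) + Real.pi / 2 := by
    rw [pow_succ]
    field_simp
    ring
  rw [h2, Real.cos_add_pi_div_two, neg_sq, ← mul_add]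
  have := Real.sin_sq_add_cos_sq (2 * Real.pi * ξ / 4 ^ (n + 1))
  rw [add_comm, this, mul_one]

theorem H_zero_of (k : ℕ) (m : ℤ) (hm : Odd m) : H (4 ^ k * m) = 0 := by
  refine le_antisymm ?_ (H_nonneg _)
  refine (H_le_h (k + 1) _).trans ?_
  rw [h_succ]
  have : Real.cos (2 * Real.pi * (4 ^ k * m) / 4 ^ (k + 1)) = 0 := by
    obtain ⟨j, rfl⟩ := hm
    rw [Real.cos_eq_zero_iff]
    refine ⟨j, ?_⟩
    rw [pow_succ]
    push_cast
    field_simp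
    ring
  rw [this]
  simp

theorem exists_of_H_zero (ξ : ℝ) (hξ : H ξ = 0) : ∃ (k : ℕ) (m : ℤ), Odd m ∧ ξ = 4 ^ k * m := by
  obtain ⟨n, hn⟩ : ∃ n : ℕ, |ξ / 4 ^ n| ≤ 3 / 8 := by
    obtain ⟨n, hn⟩ := exists_nat_gt (|ξ| * (8 / 3))
    refine ⟨n, ?_⟩
    rw [abs_div, abs_of_pos (by positivity : (0 : ℝ) < 4 ^ n), div_le_iff₀ (by positivity)]
    have h1 : (n : ℝ) ≤ 4 ^ n := by
      have : n ≤ 4 ^ n := (Nat.lt_pow_self (by norm_num : 1 < 4)).le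
      exact_mod_cast this
    linarith
  have h1 := H_lower' _ hn
  rw [H_eq n] at hξ
  rcases mul_eq_zero.1 hξ with h2 | h2
  · rw [h, prod_eq_zero_iff] at h2
    obtain ⟨k, -, hk⟩ := h2
    have hk' : Real.cos (2 * Real.pi * ξ / 4 ^ (k + 1)) = 0 := by simpa using hk
    rw [Real.cos_eq_zero_iff] at hk'
    obtain ⟨j, hj⟩ := hk'
    refine ⟨k, 2 * j + 1, ⟨j, rfl⟩, ?_⟩
    have hpi := Real.pi_ne_zero
    rw [pow_succ] at hj
    field_simp at hj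
    push_cast
    linarith
  · linarith

end Pool.Agent.Q167.CN
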