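import Pool.Agent.Q167.CN.Spec

/-!
Spectra of the Jorgensen-Pedersen measure with a hole at the `2`-adic integer `1 / l`, and the tree spectrum.
-/

set_option autoImplicit false

open Filter Topology Finset

namespace Pool.Agent.Q167.CN

theorem exists_delta (l : ℤ) (hodd : Odd l) (h3 : 3 ≤ l) :
    ∃ δ : ℝ, 0 < δ ∧ ∀ r : ℤ, ¬ l ∣ r → Real.cos (2 * Real.pi * (r / l)) ^ 2 ≤ 1 - δ := by
  have hl : (l : ℝ) ≠ 0 := by
    have : l ≠ 0 := by linarith
    exact_mod_cast this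
  obtain ⟨r₀, hr₀, hmin⟩ := exists_min_image (Ico 1 l)
    (fun r : ℤ => Real.sin (2 * Real.pi * (r / l)) ^ 2) ⟨1, by simp; linarith⟩
  refine ⟨Real.sin (2 * Real.pi * (r₀ / l)) ^ 2, ?_, ?_⟩
  · have : Real.sin (2 * Real.pi * (r₀ / l)) ≠ 0 := by
      intro h0
      rw [Real.sin_eq_zero_iff] at h0
      obtain ⟨m, hm⟩ := h0
      have h1 : (m : ℝ) * l = 2 * r₀ := by
        have hpi := Real.pi_ne_zero
        field_simp at hm
        linarith
      have h2 : m * l = 2 * r₀ := by exact_mod_cast h1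
      have h4 : l ∣ 2 * r₀ := ⟨m, by rw [← h2]; ring⟩
      have h5 : IsCoprime l 2 := by
        obtain ⟨j, hj⟩ := hodd
        exact ⟨1, -j, by rw [hj]; ring⟩
      have h6 : l ∣ r₀ := h5.dvd_of_dvd_mul_left h4
      rw [mem_Ico] at hr₀
      have := Int.le_of_dvd (by linarith) h6
      linarith
    positivity
  · intro r hr
    have hl0 : 0 < l := by linarith
    have h1 : r % l ∈ Ico 1 l := by
      rw [mem_Ico]
      refine ⟨?_, Int.emod_lt_of_pos r hl0⟩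
      have h2 := Int.emod_nonneg r hl0.ne'
      have h4 : r % l ≠ 0 := fun h0 => hr (Int.dvd_of_emod_eq_zero h0)
      omega
    have h2 := hmin _ h1
    have h4 : Real.sin (2 * Real.pi * (r / l)) ^ 2 = Real.sin (2 * Real.pi * (((r % l : ℤ) : ℝ) / l)) ^ 2 := by
      have h5 : (r : ℝ) = ((r % l : ℤ) : ℝ) + l * ((r / l : ℤ) : ℝ) := by
        exact_mod_cast (Int.emod_add_mul_ediv r l).symm
      have h6 : 2 * Real.pi * ((r : ℝ) / l) =
          2 * Real.pi * (((r % l : ℤ) : ℝ) / l) + ((r / l : ℤ) : ℝ) * (2 * Real.pi) := by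
        rw [show (r : ℝ) / l = (((r % l : ℤ) : ℝ) + l * ((r / l : ℤ) : ℝ)) / l by rw [← h5]]
        field_simp
      rw [h6, Real.sin_add_int_mul_two_pi]
    have h5 := Real.sin_sq_add_cos_sq (2 * Real.pi * ((r : ℝ) / l))
    rw [← h4] at h2
    linarith

theorem cos_sq_add_le (a b : ℝ) : Real.cos (a + b) ^ 2 ≤ Real.cos b ^ 2 + 2 * |a| := by
  have h1 : |Real.cos (a + b) - Real.cos b| ≤ |a| := by
    have := Real.abs_cos_sub_cos_le (a + b) b
    simpa using this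
  have h2 : |Real.cos (a + b) + Real.cos b| ≤ 2 := by
    have := Real.abs_cos_le_one (a + b)
    have := Real.abs_cos_le_one b
    calc _ ≤ |Real.cos (a + b)| + |Real.cos b| := abs_add_le _ _
      _ ≤ 2 := by linarith
  have h3 : Real.cos (a + b) ^ 2 - Real.cos b ^ 2 ≤ 2 * |a| := by
    calc Real.cos (a + b) ^ 2 - Real.cos b ^ 2
        = (Real.cos (a + b) - Real.cos b) * (Real.cos (a + b) + Real.cos b) := by ring
      _ ≤ |(Real.cos (a + b) - Real.cos b) * (Real.cos (a + b) + Real.cos b)| := le_abs_self _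
      _ = |Real.cos (a + b) - Real.cos b| * |Real.cos (a + b) + Real.cos b| := abs_mul _ _
      _ ≤ |a| * 2 := mul_le_mul h1 h2 (abs_nonneg _) (abs_nonneg _)
      _ = 2 * |a| := by ring
  linarith

theorem hole_lim (l : ℤ) (hodd : Odd l) (h3 : 3 ≤ l) (S : ℕ → ℤ) (hS : ∀ n, (4 : ℤ) ^ n ∣ l * S n - 1)
    (ξ : ℝ) : Tendsto (fun n => h n (ξ + S n)) atTop (𝓝 0) := by
  have hl0 : 0 < l := by linarith
  have hl : (0 : ℝ) < l := by exact_mod_cast hl0
  obtain ⟨δ, hδ, hδ'⟩ := exists_delta l hodd h3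
  have hδ1 : δ ≤ 1 := by
    have h1 := hδ' 1 (by
      intro hd
      have := Int.le_of_dvd one_pos hd
      linarith)
    have h2 : 0 ≤ Real.cos (2 * Real.pi * (((1 : ℤ) : ℝ) / l)) ^ 2 := sq_nonneg _
    linarith
  -- the tail of the angles is small
  obtain ⟨K, hK⟩ : ∃ K : ℕ, ∀ k ≥ K, |2 * Real.pi * ((ξ + 1 / l) / 4 ^ (k + 1))| ≤ δ / 4 := by
    have h1 : Tendsto (fun k : ℕ => |2 * Real.pi * ((ξ + 1 / l) / 4 ^ (k + 1))|) atTop (𝓝 0) := by
      have h2 : Tendsto (fun k : ℕ => ((4 : ℝ) ^ (k + 1))⁻¹) atTop (𝓝 0) := by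
        have : Tendsto (fun k : ℕ => (4 : ℝ) ^ (k + 1)) atTop atTop :=
          (tendsto_pow_atTop_atTop_of_one_lt (by norm_num)).comp (tendsto_add_atTop_nat 1)
        exact this.inv_tendsto_atTop
      have h3 := ((h2.const_mul (ξ + 1 / l)).const_mul (2 * Real.pi)).abs
      simpa [div_eq_mul_inv] using h3
    have h2 := h1.eventually_le_const (show (0 : ℝ) < δ / 4 by positivity)
    exact eventually_atTop.1 h2
  have hfac : ∀ n k, k < n → K ≤ k →
      Real.cos (2 * Real.pi * (ξ + S n) / 4 ^ (k + 1)) ^ 2 ≤ 1 - δ / 2 := by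
    intro n k hkn hKk
    obtain ⟨c, hc⟩ := hS n
    obtain ⟨d, hd⟩ := Nat.exists_eq_add_of_le (Nat.succ_le_of_lt hkn)
    have h1 : (l : ℝ) * S n - 1 = 4 ^ n * c := by exact_mod_cast hc
    have h2 : 2 * Real.pi * (ξ + S n) / 4 ^ (k + 1) =
        2 * Real.pi * ((ξ + 1 / l) / 4 ^ (k + 1)) + 2 * Real.pi * (((4 ^ d * c : ℤ) : ℝ) / l) := by
      have h4 : (S n : ℝ) = 1 / l + 4 ^ (k + 1) * (4 ^ d * c) / l := by
        field_simp
        have : (4 : ℝ) ^ n = 4 ^ (k + 1) * 4 ^ d := by rw [hd, ← pow_add]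
        rw [this] at h1
        linarith
      rw [h4]
      push_cast
      field_simp
      ring
    rw [h2]
    refine (cos_sq_add_le _ _).trans ?_
    have h4 : ¬ l ∣ (4 ^ d * c : ℤ) := by
      intro h5
      have h6 : l ∣ 4 ^ (k + 1) * (4 ^ d * c) := h5.mul_left _
      have h7 : (4 : ℤ) ^ (k + 1) * (4 ^ d * c) = l * S n - 1 := by
        rw [hc, hd, Nat.succ_eq_add_one, pow_add]; ring
      rw [h7] at h6
      have h8 : l ∣ 1 := by
        have := (dvd_sub_right (dvd_mul_right l (S n))).1 h6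
        exact this
      have := Int.le_of_dvd one_pos h8
      linarith
    have h5 := hδ' _ h4
    have h6 := hK k hKk
    linarith
  have hbound : ∀ n ≥ K, h n (ξ + S n) ≤ (1 - δ / 2) ^ (n - K) := by
    intro n hn
    rw [h, ← prod_range_mul_prod_Ico _ hn]
    have h1 : ∏ k ∈ range K, Real.cos (2 * Real.pi * (ξ + S n) / 4 ^ (k + 1)) ^ 2 ≤ 1 :=
      prod_le_one (fun _ _ => sq_nonneg _) fun _ _ => Real.cos_sq_le_one _
    have h2 : ∏ k ∈ Ico K n, Real.cos (2 * Real.pi * (ξ + S n) / 4 ^ (k + 1)) ^ 2 ≤ (1 - δ / 2) ^ (n - K) := by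
      have : ∏ k ∈ Ico K n, Real.cos (2 * Real.pi * (ξ + S n) / 4 ^ (k + 1)) ^ 2 ≤
          ∏ k ∈ Ico K n, (1 - δ / 2) :=
        prod_le_prod (fun _ _ => sq_nonneg _) fun k hk =>
          hfac n k (mem_Ico.1 hk).2 (mem_Ico.1 hk).1
      rwa [prod_const, Nat.card_Ico] at this
    have h3 : 0 ≤ ∏ k ∈ Ico K n, Real.cos (2 * Real.pi * (ξ + S n) / 4 ^ (k + 1)) ^ 2 :=
      prod_nonneg fun _ _ => sq_nonneg _
    nlinarith
  have hlim : Tendsto (fun n : ℕ => (1 - δ / 2) ^ (n - K)) atTop (𝓝 0) := by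
    have h1 := tendsto_pow_atTop_nhds_zero_of_lt_one (r := 1 - δ / 2) (by linarith) (by linarith)
    exact h1.comp (tendsto_sub_atTop_nat K)
  refine squeeze_zero' (Eventually.of_forall fun n => h_nonneg _ _) ?_ hlim
  filter_upwards [eventually_ge_atTop K] with n hn
  exact hbound n hn

theorem exists_S (l : ℤ) (hodd : Odd l) : ∃ S : ℕ → ℤ, ∀ n, (4 : ℤ) ^ n ∣ l * S n - 1 := by
  have h1 : ∀ n : ℕ, ∃ s : ℤ, (4 : ℤ) ^ n ∣ l * s - 1 := by
    intro n
    have h5 : IsCoprime l 4 := by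
      have : IsCoprime l 2 := by
        obtain ⟨j, hj⟩ := hodd
        exact ⟨1, -j, by rw [hj]; ring⟩
      have h6 := this.mul_right this
      norm_num at h6
      exact h6
    obtain ⟨a, b, hab⟩ := h5.pow_right (n := n)
    exact ⟨a, -b, by linarith⟩
  choose S hS using h1
  exact ⟨S, hS⟩

theorem spec_hole (l : ℤ) (hodd : Odd l) (h3 : 3 ≤ l) (S : ℕ → ℤ) (hS : ∀ n, (4 : ℤ) ^ n ∣ l * S n - 1) :
    Spec (hole S) := by
  refine spec_hole_aux S (fun n => ?_) (hole_lim l hodd h3 S hS)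
  have h1 : (4 : ℤ) ^ n ∣ l * S (n + 1) - 1 := (pow_dvd_pow 4 (Nat.le_succ n)).trans (hS (n + 1))
  have h2 : (4 : ℤ) ^ n ∣ l * (S (n + 1) - S n) := by
    have := dvd_sub h1 (hS n)
    have h4 : l * S (n + 1) - 1 - (l * S n - 1) = l * (S (n + 1) - S n) := by ring
    rwa [h4] at this
  have h5 : IsCoprime ((4 : ℤ) ^ n) l := by
    have : IsCoprime l 2 := by
      obtain ⟨j, hj⟩ := hodd
      exact ⟨1, -j, by rw [hj]; ring⟩
    have h6 := this.mul_right this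
    norm_num at h6
    exact h6.symm.pow_left
  exact h5.dvd_of_dvd_mul_left h2

/-- `l * x - 1` has the form `4^n * odd` for `x` in the hole family -/
theorem hole_diff (l : ℤ) (hodd : Odd l) (S : ℕ → ℤ) (hS : ∀ n, (4 : ℤ) ^ n ∣ l * S n - 1)
    (p : ℕ × Finset ℕ) : ∃ m : ℤ, Odd m ∧ 1 - l * hole S p = 4 ^ p.1 * m := by
  obtain ⟨c, hc⟩ := hS (p.1 + 1)
  refine ⟨-(4 * c) - l - 4 * (l * lam p.2), ?_, ?_⟩
  · obtain ⟨j, hj⟩ := hodd
    exact ⟨-(2 * c) - j - 1 - 2 * (l * lam p.2), by rw [hj]; ring⟩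
  · rw [hole]
    have : l * S (p.1 + 1) = 1 + 4 ^ (p.1 + 1) * c := by linarith
    have h2 : 1 - l * (S (p.1 + 1) + 4 ^ p.1 + 4 ^ (p.1 + 1) * lam p.2) =
        1 - l * S (p.1 + 1) - l * 4 ^ p.1 - l * (4 ^ (p.1 + 1) * lam p.2) := by ring
    rw [h2, this, pow_succ]
    ring

end Pool.Agent.Q167.CN
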