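import Pool.Agent.Q167.CN.H

/-!
The Jorgensen-Pedersen measure as the law of `∑ 2 ω_k / 4^(k+1)`.
-/

set_option autoImplicit false

open MeasureTheory ProbabilityTheory Filter Topology
open scoped Pointwise

namespace Pool.Agent.Q167.CN

/-- the fair coin -/
noncomputable def coin : Measure Bool := (2⁻¹ : ENNReal) • (Measure.dirac false + Measure.dirac true)

instance : IsProbabilityMeasure coin := by
  constructor
  rw [coin, Measure.smul_apply, Measure.add_apply, Measure.dirac_apply_of_mem (Set.mem_univ _),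
    Measure.dirac_apply_of_mem (Set.mem_univ _), smul_eq_mul, one_add_one_eq_two]
  exact ENNReal.inv_mul_cancel (by norm_num) (by norm_num)

/-- fair coin tossing -/
noncomputable def P : Measure (ℕ → Bool) := Measure.infinitePi fun _ : ℕ => coin

instance : IsProbabilityMeasure P := by
  unfold P
  infer_instance

/-- the digits -/
noncomputable def dig (k : ℕ) (b : Bool) : ℝ := if b then 2 / 4 ^ (k + 1) else 0

/-- the random number with base four digits in `{0, 2}` -/
noncomputable def X (ω : ℕ → Bool) : ℝ := ∑' k, dig k (ω k)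

theorem dig_nonneg (k : ℕ) (b : Bool) : 0 ≤ dig k b := by
  unfold dig; split_ifs <;> positivity

theorem dig_le (k : ℕ) (b : Bool) : dig k b ≤ 2 / 4 ^ (k + 1) := by
  unfold dig; split_ifs
  · exact le_rfl
  · positivity

theorem summable_bound : Summable fun k : ℕ => (2 : ℝ) / 4 ^ (k + 1) := by
  have h1 : Summable fun k : ℕ => ((1 : ℝ) / 4) ^ k :=
    summable_geometric_of_lt_one (by norm_num) (by norm_num)
  refine (h1.mul_left (1 / 2)).congr fun k => ?_
  rw [pow_succ, div_pow, one_pow]
  field_simp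
  norm_num

theorem norm_dig_le (k : ℕ) (b : Bool) : ‖dig k b‖ ≤ 2 / 4 ^ (k + 1) := by
  rw [Real.norm_of_nonneg (dig_nonneg k b)]
  exact dig_le k b

theorem summable_dig (ω : ℕ → Bool) : Summable fun k => dig k (ω k) :=
  Summable.of_norm_bounded summable_bound fun k => norm_dig_le k (ω k)

theorem continuous_dig (k : ℕ) : Continuous fun ω : ℕ → Bool => dig k (ω k) :=
  (continuous_of_discreteTopology (f := dig k)).comp (continuous_apply k)

theorem continuous_X : Continuous X :=
  continuous_tsum continuous_dig summable_bound fun k ω => norm_dig_le k (ω k)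

/-- the Jorgensen-Pedersen measure -/
noncomputable def μ4 : Measure ℝ := P.map X

instance : IsProbabilityMeasure μ4 := Measure.isProbabilityMeasure_map continuous_X.measurable.aemeasurable

theorem measurable_dig (k : ℕ) : Measurable (dig k) := measurable_of_finite _

theorem norm_half_one_add_exp (θ : ℝ) : ‖(1 + Complex.exp (θ * Complex.I)) / 2‖ ^ 2 = Real.cos (θ / 2) ^ 2 := by
  have h1 : (1 + Complex.exp (θ * Complex.I)) / 2 =
      Complex.exp ((θ / 2 : ℝ) * Complex.I) * ((Real.cos (θ / 2) : ℝ) : ℂ) := by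
    rw [Complex.ofReal_cos, Complex.cos, mul_div_assoc', mul_add, ← Complex.exp_add, ← Complex.exp_add,
      add_comm]
    congr 2
    · push_cast; ring_nf
    · rw [show (((θ / 2 : ℝ) : ℂ) * Complex.I + -((θ / 2 : ℝ) : ℂ) * Complex.I) = 0 by ring, Complex.exp_zero]
  rw [h1, norm_mul, Complex.norm_exp_ofReal_mul_I, one_mul, Complex.norm_real, Real.norm_eq_abs, sq_abs]

theorem charFun_dig (k : ℕ) (t : ℝ) : charFun (P.map fun ω => dig k (ω k)) t =
    (1 + Complex.exp ((2 * t / 4 ^ (k + 1) : ℝ) * Complex.I)) / 2 := by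
  have h1 : (P.map fun ω => dig k (ω k)) = coin.map (dig k) := by
    have h2 : P.map (Function.eval k) = coin := Measure.infinitePi_map_eval (fun _ : ℕ => coin) k
    rw [← h2, Measure.map_map (measurable_dig k) (measurable_pi_apply k)]
    rfl
  rw [h1, charFun_apply_real, integral_map (measurable_dig k).aemeasurable (by fun_prop)]
  rw [coin, integral_smul_measure, integral_add_measure, integral_dirac, integral_dirac]
  · have e0 : dig k false = 0 := by simp [dig]
    have e1 : dig k true = 2 / 4 ^ (k + 1) := by simp [dig]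
    rw [e0, e1]
    simp only [ENNReal.toReal_inv, ENNReal.toReal_ofNat, Complex.real_smul]
    push_cast
    simp only [mul_zero, zero_mul, Complex.exp_zero]
    rw [show (t : ℂ) * (2 / 4 ^ (k + 1)) * Complex.I = 2 * t / 4 ^ (k + 1) * Complex.I by ring]
    ring
  · exact Integrable.of_finite
  · exact Integrable.of_finite

theorem norm_charFun_partial (n : ℕ) (ξ : ℝ) :
    ‖charFun (P.map fun ω => ∑ k ∈ Finset.range n, dig k (ω k)) (2 * Real.pi * ξ)‖ ^ 2 = h n ξ := by
  have hind : iIndepFun (fun (k : ℕ) (ω : ℕ → Bool) => dig k (ω k)) P :=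
    iIndepFun_infinitePi (P := fun _ : ℕ => coin) (X := dig) measurable_dig
  have h1 := iIndepFun.charFun_map_fun_finsetSum_eq_prod (s := Finset.range n)
    (X := fun (k : ℕ) (ω : ℕ → Bool) => dig k (ω k)) (P := P)
    (fun k _ => (continuous_dig k).measurable.aemeasurable) (hind.restrict _)
  rw [h1, Finset.prod_apply, norm_prod, ← Finset.prod_pow, h]
  refine Finset.prod_congr rfl fun k _ => ?_
  rw [charFun_dig, norm_half_one_add_exp]
  congr 2
  ring

theorem tendsto_charFun (t : ℝ) :
    Tendsto (fun n => charFun (P.map fun ω => ∑ k ∈ Finset.range n, dig k (ω k)) t) atTop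
      (𝓝 (charFun μ4 t)) := by
  have hm : ∀ n : ℕ, Measurable fun ω : ℕ → Bool => ∑ k ∈ Finset.range n, dig k (ω k) := fun n =>
    Finset.measurable_sum _ fun k _ => (continuous_dig k).measurable
  have h1 : ∀ n, charFun (P.map fun ω => ∑ k ∈ Finset.range n, dig k (ω k)) t =
      ∫ ω, Complex.exp (t * ((∑ k ∈ Finset.range n, dig k (ω k) : ℝ) : ℂ) * Complex.I) ∂P := by
    intro n
    rw [charFun_apply_real, integral_map (hm n).aemeasurable (by fun_prop)]
  have h2 : charFun μ4 t = ∫ ω, Complex.exp (t * (X ω : ℂ) * Complex.I) ∂P := by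
    rw [charFun_apply_real, μ4, integral_map continuous_X.measurable.aemeasurable (by fun_prop)]
  simp_rw [h1]
  rw [h2]
  refine tendsto_integral_of_dominated_convergence (fun _ => (1 : ℝ)) ?_ (integrable_const _) ?_ ?_
  · intro n
    have := hm n
    exact (by fun_prop : Measurable fun ω : ℕ → Bool =>
      Complex.exp (t * ((∑ k ∈ Finset.range n, dig k (ω k) : ℝ) : ℂ) * Complex.I)).aestronglyMeasurable
  · intro n
    filter_upwards with ω
    rw [← Complex.ofReal_mul, Complex.norm_exp_ofReal_mul_I]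
  · filter_upwards with ω
    have h3 : Tendsto (fun n => ∑ k ∈ Finset.range n, dig k (ω k)) atTop (𝓝 (X ω)) :=
      (summable_dig ω).hasSum.tendsto_sum_nat
    have h4 : Continuous fun y : ℝ => Complex.exp (t * (y : ℂ) * Complex.I) := by fun_prop
    exact (h4.tendsto (X ω)).comp h3

theorem norm_charFun_μ4 (ξ : ℝ) : ‖charFun μ4 (2 * Real.pi * ξ)‖ ^ 2 = H ξ := by
  have h1 := ((tendsto_charFun (2 * Real.pi * ξ)).norm).pow 2
  simp_rw [norm_charFun_partial] at h1
  exact tendsto_nhds_unique h1 (tendsto_h ξ)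

/-! ### The support -/

theorem X_nonneg (ω : ℕ → Bool) : 0 ≤ X ω := tsum_nonneg fun k => dig_nonneg k (ω k)

theorem isCompact_range_X : IsCompact (Set.range X) := isCompact_range continuous_X

theorem X_succ (ω : ℕ → Bool) : X ω = dig 0 (ω 0) + X (fun k => ω (k + 1)) / 4 := by
  rw [X, (summable_dig ω).tsum_eq_zero_add, X, ← tsum_div_const]
  congr 1
  refine tsum_congr fun k => ?_
  unfold dig
  split_ifs
  · rw [pow_succ 4 (k + 1)]
    field_simp
  · simp

theorem volume_range_X : volume (Set.range X) = 0 := by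
  set K := Set.range X with hK
  have hsub : K ⊆ (fun x => (1 / 4 : ℝ) * x) '' K ∪ (fun x => (1 / 2 : ℝ) + x) '' ((fun x => (1 / 4 : ℝ) * x) '' K) := by
    rintro _ ⟨ω, rfl⟩
    rw [X_succ]
    cases h0 : ω 0
    · left
      refine ⟨X (fun k => ω (k + 1)), ⟨_, rfl⟩, ?_⟩
      simp [dig]; ring
    · right
      refine ⟨_, ⟨X (fun k => ω (k + 1)), ⟨_, rfl⟩, rfl⟩, ?_⟩
      simp [dig]; ring
  have h1 : volume K ≤ volume ((fun x => (1 / 4 : ℝ) * x) '' K) +
      volume ((fun x => (1 / 2 : ℝ) + x) '' ((fun x => (1 / 4 : ℝ) * x) '' K)) :=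
    (measure_mono hsub).trans (measure_union_le _ _)
  have h2 : volume ((fun x => (1 / 4 : ℝ) * x) '' K) = ENNReal.ofReal (1 / 4) * volume K := by
    have h5 : (fun x => (1 / 4 : ℝ) * x) '' K = (1 / 4 : ℝ) • K := rfl
    rw [h5, Measure.addHaar_smul, Module.finrank_self, pow_one, abs_of_pos (by norm_num)]
  have h3 : volume ((fun x => (1 / 2 : ℝ) + x) '' ((fun x => (1 / 4 : ℝ) * x) '' K)) =
      volume ((fun x => (1 / 4 : ℝ) * x) '' K) := by
    rw [Set.image_add_left, measure_preimage_add]
  rw [h3, h2] at h1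
  have hfin : volume K ≠ ⊤ := isCompact_range_X.measure_ne_top
  by_contra h0
  have h4 : ENNReal.ofReal (1 / 4) * volume K + ENNReal.ofReal (1 / 4) * volume K =
      ENNReal.ofReal (1 / 2) * volume K := by
    rw [← add_mul, ← ENNReal.ofReal_add (by norm_num) (by norm_num)]
    norm_num
  rw [h4] at h1
  have h5 : (volume K).toReal ≤ 1 / 2 * (volume K).toReal := by
    have := ENNReal.toReal_mono (by
      exact ENNReal.mul_ne_top ENNReal.ofReal_ne_top hfin) h1
    rwa [ENNReal.toReal_mul, ENNReal.toReal_ofReal (by norm_num)] at this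
  have h6 : 0 < (volume K).toReal := ENNReal.toReal_pos h0 hfin
  linarith

theorem μ4_compl_range : μ4 (Set.range X)ᶜ = 0 := by
  rw [μ4, Measure.map_apply continuous_X.measurable isCompact_range_X.measurableSet.compl]
  have : X ⁻¹' (Set.range X)ᶜ = ∅ := by
    ext ω; simp
  rw [this, measure_empty]

theorem μ4_singular : μ4 ⟂ₘ (volume : Measure ℝ) :=
  ⟨(Set.range X)ᶜ, isCompact_range_X.measurableSet.compl, μ4_compl_range, by rw [compl_compl]; exact volume_range_X⟩

end Pool.Agent.Q167.CN
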