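import Pool.Agent.Q167.CN.Hole
import Pool.Agent.Q167.CN.Mu
import Pool.Agent.Q167.CN.L2
import Pool.Agent.Q167.CN.Defs

/-!
The tree spectrum of the Jorgensen-Pedersen measure has only the complete numbers `1` and `-1`.
-/

set_option autoImplicit false

open MeasureTheory Filter Topology
open scoped InnerProductSpace

namespace Pool.Agent.Q167.CN

theorem H_neg (ξ : ℝ) : H (-ξ) = H ξ := by
  unfold H
  congr 1
  ext n
  unfold h
  refine Finset.prod_congr rfl fun k _ => ?_
  rw [show 2 * Real.pi * -ξ / 4 ^ (k + 1) = -(2 * Real.pi * ξ / 4 ^ (k + 1)) by ring, Real.cos_neg]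

theorem H_zero_int (z : ℤ) (hz : ∃ (k : ℕ) (m : ℤ), Odd m ∧ z = 4 ^ k * m) : H z = 0 := by
  obtain ⟨k, m, hm, rfl⟩ := hz
  push_cast
  exact H_zero_of k m hm

theorem Spec.set {ι : Type} {l : ι → ℤ} (hl : Spec l) : Spec (fun x : Set.range l => (x : ℤ)) := by
  intro ξ
  rw [tsum_range (fun z : ℤ => ENNReal.ofReal (H (ξ + z))) hl.injective]
  exact hl ξ

theorem exists_leaves : ∃ L : ℕ → Set ℤ, (∀ j, Spec (fun x : L j => (x : ℤ))) ∧
    (∀ j : ℕ, Odd j → 3 ≤ j → ∀ x ∈ L j, ∃ (n : ℕ) (m : ℤ), Odd m ∧ 1 - (j : ℤ) * x = 4 ^ n * m) ∧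
    (0 : ℤ) ∈ L 0 := by
  have key : ∀ j : ℕ, ∃ A : Set ℤ, Spec (fun x : A => (x : ℤ)) ∧
      (Odd j → 3 ≤ j → ∀ x ∈ A, ∃ (n : ℕ) (m : ℤ), Odd m ∧ 1 - (j : ℤ) * x = 4 ^ n * m) ∧
      (j = 0 → (0 : ℤ) ∈ A) := by
    intro j
    by_cases hj : Odd j ∧ 3 ≤ j
    · obtain ⟨h1, h2⟩ := hj
      have h1' : Odd (j : ℤ) := by exact_mod_cast h1
      obtain ⟨S, hS⟩ := exists_S j h1'
      refine ⟨Set.range (hole S), (spec_hole j h1' (by exact_mod_cast h2) S hS).set, ?_, ?_⟩
      · rintro - - _ ⟨p, rfl⟩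
        obtain ⟨m, hm, hm2⟩ := hole_diff j h1' S hS p
        exact ⟨p.1, m, hm, hm2⟩
      · intro h0; omega
    · refine ⟨Set.range lam, spec_lam.set, fun h1 h2 => absurd ⟨h1, h2⟩ hj, fun _ => ⟨∅, by simp [lam]⟩⟩
  choose L hL using key
  exact ⟨L, fun j => (hL j).1, fun j => (hL j).2.1, (hL 0).2.2 rfl⟩

theorem parseval_pos {ι : Type} {l : ι → ℤ} (hl : Spec l) (ξ : ℝ) :
    ∑' y : Set.range (fun i => (l i : ℝ)), ENNReal.ofReal (‖charFun μ4 (2 * Real.pi * (y - ξ))‖ ^ 2) = 1 := by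
  have hinj : Function.Injective fun i => (l i : ℝ) := fun i j hij => hl.injective (by
    have : (l i : ℝ) = l j := hij
    exact_mod_cast this)
  rw [tsum_range (fun z : ℝ => ENNReal.ofReal (‖charFun μ4 (2 * Real.pi * (z - ξ))‖ ^ 2)) hinj,
    ← hl (-ξ)]
  refine tsum_congr fun i => ?_
  rw [norm_charFun_μ4]
  congr 2
  ring

theorem parseval_neg {ι : Type} {l : ι → ℤ} (hl : Spec l) (ξ : ℝ) :
    ∑' y : Set.range (fun i => -(l i : ℝ)), ENNReal.ofReal (‖charFun μ4 (2 * Real.pi * (y - ξ))‖ ^ 2) = 1 := by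
  have hinj : Function.Injective fun i => -(l i : ℝ) := fun i j hij => hl.injective (by
    have := neg_injective hij
    exact_mod_cast this)
  rw [tsum_range (fun z : ℝ => ENNReal.ofReal (‖charFun μ4 (2 * Real.pi * (z - ξ))‖ ^ 2)) hinj,
    ← hl ξ]
  refine tsum_congr fun i => ?_
  rw [norm_charFun_μ4, show -(l i : ℝ) - ξ = -(ξ + l i) by ring, H_neg]

theorem pair_pos {ι : Type} {l : ι → ℤ} (hl : Spec l) : IsSpectralPair μ4 (Set.range fun i => (l i : ℝ)) := by
  refine ⟨?_, exists_basis μ4 _ (parseval_pos hl)⟩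
  have : Set.range (fun i => (l i : ℝ)) = ((↑) : ℤ → ℝ) '' Set.range l := by
    rw [← Set.range_comp]; rfl
  rw [this]
  exact (Set.to_countable _).image _

theorem pair_neg {ι : Type} {l : ι → ℤ} (hl : Spec l) : IsSpectralPair μ4 (Set.range fun i => -(l i : ℝ)) := by
  refine ⟨?_, exists_basis μ4 _ (parseval_neg hl)⟩
  have : Set.range (fun i => -(l i : ℝ)) = (fun z : ℤ => -(z : ℝ)) '' Set.range l := by
    rw [← Set.range_comp]; rfl
  rw [this]
  exact (Set.to_countable _).image _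

theorem coe_basis {M : Set ℝ} (b : HilbertBasis M ℂ (Lp ℂ 2 μ4))
    (hb : ∀ l : M, (b l : ℝ → ℂ) =ᵐ[μ4] fun x => Complex.exp (-(2 * Real.pi * (l : ℝ) * x) * Complex.I))
    (l : M) : b l = E μ4 l := by
  rw [Lp.ext_iff]
  filter_upwards [hb l, coe_E μ4 l] with x h1 h2
  rw [h1, h2, e]

theorem inner_zero (s t : ℝ) (hH : H (s - t) = 0) : ⟪E μ4 s, E μ4 t⟫_ℂ = 0 := by
  rw [inner_E_E, ← norm_eq_zero]
  have := norm_charFun_μ4 (s - t)
  rw [hH] at this
  exact pow_eq_zero_iff (two_ne_zero) |>.1 this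

theorem pair_orth {M : Set ℝ} (hM : IsSpectralPair μ4 M) {y y' : ℝ} (hy : y ∈ M) (hy' : y' ∈ M) (hne : y ≠ y') :
    H (y - y') = 0 := by
  obtain ⟨-, b, hb⟩ := hM
  have h1 := b.orthonormal.2 (i := ⟨y, hy⟩) (j := ⟨y', hy'⟩) (fun h => hne (by simpa using h))
  have h2 : ⟪b ⟨y, hy⟩, b ⟨y', hy'⟩⟫_ℂ = 0 := h1
  rw [coe_basis b hb, coe_basis b hb, inner_E_E] at h2
  have := norm_charFun_μ4 (y - y')
  rw [h2] at this
  simpa using this.symm

theorem pair_complete {M : Set ℝ} (hM : IsSpectralPair μ4 M) (x : ℝ) (hx : ∀ y ∈ M, H (y - x) = 0) : False := by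
  obtain ⟨-, b, hb⟩ := hM
  have h1 : b.repr (E μ4 x) = 0 := by
    ext l
    rw [b.repr_apply_apply, coe_basis b hb, inner_zero _ _ (hx l l.2)]
    rfl
  have h2 : E μ4 x = 0 := by
    have := congrArg b.repr.symm h1
    simpa using this
  have h3 := norm_E μ4 x
  rw [h2, norm_zero] at h3
  exact zero_ne_one h3

/-- no atoms, from Bessel's inequality for infinitely many exponentials -/
theorem no_atoms {M : Set ℝ} (hM : IsSpectralPair μ4 M) (hinf : M.Infinite) (x : ℝ) : μ4 {x} = 0 := by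
  obtain ⟨-, b, hb⟩ := hM
  set m : ℝ := (μ4 {x}).toReal with hm
  have hfin : μ4 {x} ≠ ⊤ := measure_ne_top _ _
  have hm0 : 0 ≤ m := ENNReal.toReal_nonneg
  let f : Lp ℂ 2 μ4 := indicatorConstLp 2 (measurableSet_singleton x) hfin (1 : ℂ)
  have hf : (f : ℝ → ℂ) =ᵐ[μ4] Set.indicator {x} fun _ => (1 : ℂ) := indicatorConstLp_coeFn
  have hin : ∀ l : M, ‖⟪b l, f⟫_ℂ‖ = m := by
    intro l
    rw [coe_basis b hb, inner_E]
    have h1 : ∫ y, Complex.exp ((2 * Real.pi * (l : ℝ) : ℝ) * y * Complex.I) * f y ∂μ4 =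
        ∫ y, Set.indicator {x} (fun y : ℝ => Complex.exp ((2 * Real.pi * (l : ℝ) : ℝ) * y * Complex.I)) y ∂μ4 := by
      refine integral_congr_ae ?_
      filter_upwards [hf] with y hy
      rw [hy]
      by_cases hyx : y ∈ ({x} : Set ℝ)
      · rw [Set.indicator_of_mem hyx, Set.indicator_of_mem hyx, mul_one]
      · rw [Set.indicator_of_notMem hyx, Set.indicator_of_notMem hyx, mul_zero]
    rw [h1, integral_indicator (measurableSet_singleton x), integral_singleton, norm_smul,
      ← Complex.ofReal_mul, Complex.norm_exp_ofReal_mul_I, mul_one, Real.norm_of_nonneg measureReal_nonneg]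
    rfl
  have hnf : ‖f‖ ^ 2 = m := by
    have h1 : ‖f‖ = (μ4 {x}).toReal ^ (1 / (2 : ENNReal).toReal) * ‖(1 : ℂ)‖ := by
      have := norm_indicatorConstLp (μ := μ4) (s := {x}) (hs := measurableSet_singleton x) (hμs := hfin)
        (c := (1 : ℂ)) (p := 2) two_ne_zero ENNReal.ofNat_ne_top
      rw [this, mul_comm]
      rfl
    rw [h1, norm_one, mul_one, ← hm]
    rw [ENNReal.toReal_ofNat, ← Real.sqrt_eq_rpow, Real.sq_sqrt hm0]
  by_contra h0
  have hmpos : 0 < m := ENNReal.toReal_pos h0 hfin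
  obtain ⟨n, hn⟩ := exists_nat_gt (1 / m)
  have : Infinite M := hinf.to_subtype
  obtain ⟨s, hs⟩ := Infinite.exists_subset_card_eq M n
  have h1 := b.orthonormal.sum_inner_products_le f (s := s)
  simp_rw [hin] at h1
  rw [Finset.sum_const, hs, hnf, nsmul_eq_mul] at h1
  rw [div_lt_iff₀ hmpos] at hn
  nlinarith

/-- there is a spectrum of the Jorgensen-Pedersen measure whose only complete numbers are `1` and `-1` -/
theorem main : ∃ T : Set ℤ, IsSpectralPair μ4 (((↑) : ℤ → ℝ) '' T) ∧ T.Infinite ∧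
    {t : ℝ | IsSpectralPair μ4 ((fun x => t * x) '' (((↑) : ℤ → ℝ) '' T))} = {1, -1} := by
  obtain ⟨L, hspec, hhole, hL0⟩ := exists_leaves
  have hsp : Spec (spine fun j (x : L j) => (x : ℤ)) := spec_spine _ hspec
  set l := spine fun j (x : L j) => (x : ℤ) with hl
  have himg : ((↑) : ℤ → ℝ) '' Set.range l = Set.range fun i => (l i : ℝ) := by
    rw [← Set.range_comp]; rfl
  have hT0 : (0 : ℤ) ∈ Set.range l := ⟨.inl (), rfl⟩
  have hT1 : (1 : ℤ) ∈ Set.range l := ⟨.inr ⟨0, ⟨0, hL0⟩⟩, by simp [hl, spine]⟩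
  have hpair : IsSpectralPair μ4 (((↑) : ℤ → ℝ) '' Set.range l) := by
    rw [himg]; exact pair_pos hsp
  have hform : ∀ z ∈ Set.range l, z = 0 ∨ ∃ (j : ℕ) (a : ℤ), a ∈ L j ∧ z = 4 ^ j + 4 ^ (j + 1) * a := by
    rintro _ ⟨i, rfl⟩
    rcases i with u | ⟨j, a⟩
    · left; rfl
    · right; exact ⟨j, a, a.2, rfl⟩
  refine ⟨Set.range l, hpair, ?_, ?_⟩
  · -- infinitely many elements
    have hne : ∀ j, ∃ a, a ∈ L j := by
      intro j
      by_contra hcon
      push Not at hcon
      have h1 := hspec j 0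
      have : IsEmpty (L j) := ⟨fun a => hcon a a.2⟩
      rw [tsum_empty] at h1
      exact zero_ne_one h1
    choose a ha using hne
    have h1 : Function.Injective fun j : ℕ => l (.inr ⟨j, ⟨a j, ha j⟩⟩) := by
      intro j j' hjj
      have h2 := hsp.injective hjj
      simpa using congrArg (fun x : Unit ⊕ (Σ j, L j) => x.elim (fun _ => 0) fun p => p.1) h2
    exact Set.infinite_of_injective_forall_mem h1 fun j => ⟨_, rfl⟩
  · ext t
    simp only [Set.mem_ofPred_eq, Set.mem_insert_iff, Set.mem_singleton_iff]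
    constructor
    · intro ht
      have hmem : ∀ z ∈ Set.range l, t * (z : ℝ) ∈ (fun x => t * x) '' (((↑) : ℤ → ℝ) '' Set.range l) :=
        fun z hz => ⟨z, ⟨z, hz, rfl⟩, rfl⟩
      have h0 := hmem 0 hT0
      have h1 := hmem 1 hT1
      rw [Int.cast_zero, mul_zero] at h0
      rw [Int.cast_one, mul_one] at h1
      have ht0 : t ≠ 0 := by
        rintro rfl
        refine pair_complete ht 1 ?_
        rintro _ ⟨z, -, rfl⟩
        have := H_zero_int (-1) ⟨0, -1, by decide, by norm_num⟩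
        simpa using this
      have h2 := pair_orth ht h1 h0 ht0
      rw [sub_zero] at h2
      obtain ⟨k, m, hm, htm⟩ := exists_of_H_zero t h2
      rcases Nat.eq_zero_or_pos k with hk | hk
      · subst hk
        rw [pow_zero, one_mul] at htm
        -- t is an odd integer
        by_contra hcon
        push Not at hcon
        obtain ⟨hc1, hc2⟩ := hcon
        have hm1 : m ≠ 1 := fun h => hc1 (by rw [htm, h]; norm_num)
        have hm2 : m ≠ -1 := fun h => hc2 (by rw [htm, h]; norm_num)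
        obtain ⟨j, hj⟩ : ∃ j : ℕ, j = m.natAbs := ⟨_, rfl⟩
        have hjodd : Odd j := by rw [hj]; exact Int.natAbs_odd.2 hm
        have hj3 : 3 ≤ j := by
          obtain ⟨r, hr⟩ := hm
          omega
        have hjo : Odd (j : ℤ) := by exact_mod_cast hjodd
        have hkey : ∀ z ∈ Set.range l, ∃ (k' : ℕ) (m' : ℤ), Odd m' ∧ (j : ℤ) * z - 4 ^ j * (j + 4) = 4 ^ k' * m' := by
          intro z hz
          have h4 : Odd ((j : ℤ) + 4) := by
            obtain ⟨r, hr⟩ := hjo
            exact ⟨r + 2, by rw [hr]; ring⟩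
          rcases hform z hz with rfl | ⟨j', a, ha, rfl⟩
          · exact ⟨j, -((j : ℤ) + 4), h4.neg, by ring⟩
          · have h5 : Odd ((j : ℤ) * (1 + 4 * a)) := hjo.mul ⟨2 * a, by ring⟩
            rcases lt_trichotomy j' j with hlt | heq | hgt
            · obtain ⟨d, hd⟩ := Nat.exists_eq_add_of_lt hlt
              refine ⟨j', (j : ℤ) * (1 + 4 * a) - 4 ^ (d + 1) * (j + 4), ?_, ?_⟩
              · refine h5.sub_even ?_
                rw [pow_succ]
                exact ⟨4 ^ d * 2 * (j + 4), by ring⟩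
              · have h6 : (4 : ℤ) ^ j = 4 ^ j' * 4 ^ (d + 1) := by
                  rw [← pow_add]; congr 1
                rw [h6]
                ring
            · subst heq
              obtain ⟨n, m', hm', h6⟩ := hhole j' hjodd hj3 a ha
              refine ⟨j' + 1 + n, -m', hm'.neg, ?_⟩
              have h7 : (4 : ℤ) ^ (j' + 1 + n) * -m' = -(4 ^ (j' + 1) * (4 ^ n * m')) := by
                rw [pow_add]; ring
              rw [h7, ← h6]
              ring
            · obtain ⟨d, hd⟩ := Nat.exists_eq_add_of_lt hgt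
              refine ⟨j, 4 ^ (d + 1) * ((j : ℤ) * (1 + 4 * a)) - (j + 4), ?_, ?_⟩
              · refine Even.sub_odd ?_ h4
                rw [pow_succ]
                exact ⟨4 ^ d * 2 * ((j : ℤ) * (1 + 4 * a)), by ring⟩
              · have h6 : (4 : ℤ) ^ j' = 4 ^ j * 4 ^ (d + 1) := by
                  rw [← pow_add]; congr 1
                rw [pow_succ, h6]
                ring
        rcases Int.natAbs_eq m with hmj | hmj
        · rw [← hj] at hmj
          refine pair_complete ht ((4 ^ j * (j + 4) : ℤ) : ℝ) ?_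
          rintro _ ⟨_, ⟨z, hz, rfl⟩, rfl⟩
          simp only
          rw [htm, hmj, ← Int.cast_mul, ← Int.cast_sub]
          exact H_zero_int _ (hkey z hz)
        · rw [← hj] at hmj
          refine pair_complete ht ((-(4 ^ j * (j + 4)) : ℤ) : ℝ) ?_
          rintro _ ⟨_, ⟨z, hz, rfl⟩, rfl⟩
          simp only
          rw [htm, hmj, ← Int.cast_mul, ← Int.cast_sub]
          obtain ⟨k', m', hm', h6⟩ := hkey z hz
          refine H_zero_int _ ⟨k', -m', hm'.neg, ?_⟩
          rw [mul_neg, ← h6]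
          ring
      · exfalso
        refine pair_complete ht 1 ?_
        rintro _ ⟨_, ⟨z, hz, rfl⟩, rfl⟩
        simp only
        have h3 : t * (z : ℝ) - 1 = ((4 ^ k * m * z - 1 : ℤ) : ℝ) := by
          rw [htm]; push_cast; ring
        rw [h3]
        refine H_zero_int _ ⟨0, 4 ^ k * m * z - 1, ?_, by ring⟩
        obtain ⟨d, rfl⟩ := Nat.exists_eq_add_of_le hk
        refine Even.sub_odd ⟨2 * 4 ^ d * m * z, by rw [add_comm, pow_succ]; ring⟩ odd_one
    · rintro (rfl | rfl)
      · simpa using hpair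
      · have h1 : (fun x : ℝ => -1 * x) '' (((↑) : ℤ → ℝ) '' Set.range l) = Set.range fun i => -(l i : ℝ) := by
          rw [himg, ← Set.range_comp]
          congr 1
          ext i
          simp
        rw [h1]
        exact pair_neg hsp

/-- the refinement equation for the Fourier transform -/
theorem charFun_refine (t : ℝ) : charFun μ4 t =
    (1 + Complex.exp ((t / 2 : ℝ) * Complex.I)) / 2 * charFun μ4 (t / 4) := by
  have hprod : ∀ (n : ℕ) (t : ℝ), charFun (P.map fun ω => ∑ k ∈ Finset.range n, dig k (ω k)) t =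
      ∏ k ∈ Finset.range n, (1 + Complex.exp ((2 * t / 4 ^ (k + 1) : ℝ) * Complex.I)) / 2 := by
    intro n t
    have hind : ProbabilityTheory.iIndepFun (fun (k : ℕ) (ω : ℕ → Bool) => dig k (ω k)) P :=
      ProbabilityTheory.iIndepFun_infinitePi (P := fun _ : ℕ => coin) (X := dig) measurable_dig
    have h1 := ProbabilityTheory.iIndepFun.charFun_map_fun_finsetSum_eq_prod (s := Finset.range n)
      (X := fun (k : ℕ) (ω : ℕ → Bool) => dig k (ω k)) (P := P)
      (fun k _ => (continuous_dig k).measurable.aemeasurable) (hind.restrict _)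
    rw [h1, Finset.prod_apply]
    exact Finset.prod_congr rfl fun k _ => charFun_dig k t
  have h1 := (tendsto_charFun t).comp (tendsto_add_atTop_nat 1)
  have h2 := (tendsto_charFun (t / 4)).const_mul ((1 + Complex.exp ((t / 2 : ℝ) * Complex.I)) / 2)
  refine tendsto_nhds_unique h1 (h2.congr fun n => ?_)
  simp only [Function.comp]
  rw [hprod, hprod, Finset.prod_range_succ', mul_comm]
  congr 1
  · refine Finset.prod_congr rfl fun k _ => ?_
    congr 4
    rw [pow_succ 4 (k + 1)]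
    field_simp
  · congr 4
    norm_num
    ring

theorem μ4_refine : μ4 = (2⁻¹ : ENNReal) • (μ4.map (fun x => x / 4) + μ4.map (fun x => (x + 2) / 4)) := by
  have hm0 : Measurable fun x : ℝ => x / 4 := by fun_prop
  have hm1 : Measurable fun x : ℝ => (x + 2) / 4 := by fun_prop
  have i0 : IsProbabilityMeasure (μ4.map fun x => x / 4) := Measure.isProbabilityMeasure_map hm0.aemeasurable
  have i1 : IsProbabilityMeasure (μ4.map fun x => (x + 2) / 4) := Measure.isProbabilityMeasure_map hm1.aemeasurable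
  have ifin : IsFiniteMeasure ((2⁻¹ : ENNReal) • (μ4.map (fun x => x / 4) + μ4.map (fun x => (x + 2) / 4))) :=
    Measure.smul_finite _ (by simp)
  refine Measure.ext_of_charFun ?_
  ext t
  have hint : ∀ (ν : Measure ℝ) [IsProbabilityMeasure ν],
      Integrable (fun x : ℝ => Complex.exp (t * x * Complex.I)) ν := by
    intro ν _
    refine (integrable_const (1 : ℝ)).mono' (by fun_prop) ?_
    filter_upwards with x
    rw [← Complex.ofReal_mul, Complex.norm_exp_ofReal_mul_I]
  rw [charFun_refine, charFun_apply_real (μ := (2⁻¹ : ENNReal) • _), integral_smul_measure,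
    integral_add_measure (hint _) (hint _), integral_map hm0.aemeasurable (by fun_prop),
    integral_map hm1.aemeasurable (by fun_prop), charFun_apply_real]
  have h0 : ∫ x : ℝ, Complex.exp (t * ((x / 4 : ℝ) : ℂ) * Complex.I) ∂μ4 =
      ∫ x : ℝ, Complex.exp (((t / 4 : ℝ) : ℂ) * x * Complex.I) ∂μ4 := by
    congr 1; ext x; congr 1; push_cast; ring
  have h1 : ∫ x : ℝ, Complex.exp (t * (((x + 2) / 4 : ℝ) : ℂ) * Complex.I) ∂μ4 =
      Complex.exp ((t / 2 : ℝ) * Complex.I) * ∫ x : ℝ, Complex.exp (((t / 4 : ℝ) : ℂ) * x * Complex.I) ∂μ4 := by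
    rw [← integral_const_mul]
    congr 1; ext x; rw [← Complex.exp_add]; congr 1; push_cast; ring
  rw [h0, h1]
  simp only [ENNReal.toReal_inv, ENNReal.toReal_ofNat, Complex.real_smul]
  push_cast
  ring

end Pool.Agent.Q167.CN
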