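import Pool.Agent.Q167.CN.H

/-!
Integer families `l` with `∑ H (ξ + l i) = 1` for every real `ξ`.
-/

set_option autoImplicit false

open Filter Topology Finset

namespace Pool.Agent.Q167.CN

/-- the family has total mass one at every point -/
def Spec {ι : Type} (l : ι → ℤ) : Prop := ∀ ξ : ℝ, ∑' i, ENNReal.ofReal (H (ξ + l i)) = 1

theorem H_at_zero : H 0 = 1 := by
  refine le_antisymm (H_le_one 0) ?_
  have := H_lower 0
  simpa using this

theorem Spec.injective {ι : Type} {l : ι → ℤ} (hl : Spec l) : Function.Injective l := by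
  classical
  intro i j hij
  by_contra hne
  have h1 := hl (-(l i : ℝ))
  have h2 : ∑ k ∈ ({i, j} : Finset ι), ENNReal.ofReal (H (-(l i : ℝ) + l k)) ≤ 1 := by
    rw [← h1]
    exact ENNReal.sum_le_tsum _
  rw [Finset.sum_pair hne, ← hij, neg_add_cancel, H_at_zero] at h2
  norm_num at h2

theorem Spec.orth {ι : Type} {l : ι → ℤ} (hl : Spec l) {i j : ι} (hij : i ≠ j) :
    H (-(l i : ℝ) + l j) = 0 := by
  classical
  have h1 := hl (-(l i : ℝ))
  have h2 : ∑ k ∈ ({i, j} : Finset ι), ENNReal.ofReal (H (-(l i : ℝ) + l k)) ≤ 1 := by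
    rw [← h1]
    exact ENNReal.sum_le_tsum _
  rw [Finset.sum_pair hij, neg_add_cancel, H_at_zero, ENNReal.ofReal_one] at h2
  have h3 : ENNReal.ofReal (H (-(l i : ℝ) + l j)) ≤ 0 := by
    have h4 : (1 : ENNReal) + ENNReal.ofReal (H (-(l i : ℝ) + l j)) ≤ 1 + 0 := by simpa using h2
    exact (ENNReal.add_le_add_iff_left ENNReal.one_ne_top).1 h4
  have h5 := ENNReal.ofReal_eq_zero.1 (le_antisymm h3 bot_le)
  exact le_antisymm h5 (H_nonneg _)

theorem H_shift (n : ℕ) (η : ℝ) (a : ℤ) : H (η + 4 ^ n * a) = h n η * H (η / 4 ^ n + a) := by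
  rw [H_eq n, h_per]
  congr 2
  field_simp

/-- a scaled and shifted family -/
theorem Spec.scaled {ι : Type} {l : ι → ℤ} (hl : Spec l) (n : ℕ) (η : ℝ) :
    ∑' i, ENNReal.ofReal (H (η + 4 ^ n * l i)) = ENNReal.ofReal (h n η) := by
  have h1 : ∀ i, ENNReal.ofReal (H (η + 4 ^ n * l i)) =
      ENNReal.ofReal (h n η) * ENNReal.ofReal (H (η / 4 ^ n + l i)) := by
    intro i
    rw [H_shift, ENNReal.ofReal_mul (h_nonneg n η)]
  simp_rw [h1]
  rw [ENNReal.tsum_mul_left, hl, mul_one]

/-- sums of distinct powers of four -/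
def lam (A : Finset ℕ) : ℤ := ∑ k ∈ A, 4 ^ k

theorem sum_h_lam (n : ℕ) (ξ : ℝ) : ∑ A ∈ (range n).powerset, h n (ξ + lam A) = 1 := by
  induction n with
  | zero => simp [h_zero]
  | succ n ih =>
    rw [range_add_one, sum_powerset_insert (by simp), ← sum_add_distrib, ← ih]
    refine sum_congr rfl fun A hA => ?_
    have hn : n ∉ A := fun hn => by
      have := mem_powerset.1 hA hn
      simp at this
    have h1 : (lam (insert n A) : ℝ) = lam A + 4 ^ n := by
      rw [lam, sum_insert hn, lam]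
      push_cast
      ring
    rw [h1, ← add_assoc, h_split]

theorem lam_nonneg (A : Finset ℕ) : 0 ≤ lam A := sum_nonneg fun _ _ => by positivity

theorem lam_le (n : ℕ) (A : Finset ℕ) (hA : A ⊆ range n) : 3 * lam A < 4 ^ n := by
  have h1 : lam A ≤ ∑ k ∈ range n, (4 : ℤ) ^ k :=
    sum_le_sum_of_subset_of_nonneg hA fun _ _ _ => by positivity
  have h2 : ∀ n : ℕ, 3 * ∑ k ∈ range n, (4 : ℤ) ^ k + 1 = 4 ^ n := by
    intro n
    induction n with
    | zero => simp
    | succ n ih => rw [sum_range_succ, pow_succ]; linarith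
  have := h2 n
  linarith

theorem sum_H_lam_le (n : ℕ) (ξ : ℝ) : ∑ A ∈ (range n).powerset, H (ξ + lam A) ≤ 1 := by
  rw [← sum_h_lam n ξ]
  exact sum_le_sum fun A _ => H_le_h n _

theorem summable_H_lam (ξ : ℝ) : Summable fun A : Finset ℕ => H (ξ + lam A) := by
  classical
  refine summable_of_sum_le (c := 1) (fun A => H_nonneg _) fun u => ?_
  obtain ⟨n, hn⟩ : ∃ n, ∀ A ∈ u, A ⊆ range n := by
    refine ⟨(u.biUnion id).sup id + 1, fun A hA k hk => ?_⟩
    rw [mem_range, Nat.lt_succ_iff]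
    exact Finset.le_sup (f := id) (mem_biUnion.2 ⟨A, hA, hk⟩)
  refine le_trans ?_ (sum_H_lam_le n ξ)
  refine sum_le_sum_of_subset_of_nonneg (fun A hA => mem_powerset.2 (hn A hA)) fun _ _ _ => H_nonneg _

theorem spec_lam : Spec lam := by
  classical
  intro ξ
  rw [← ENNReal.ofReal_tsum_of_nonneg (fun A => H_nonneg _) (summable_H_lam ξ)]
  have key : ∑' A : Finset ℕ, H (ξ + lam A) = 1 := by
    let f : ℕ → Finset ℕ → ℝ := fun n A => if A ∈ (range n).powerset then h n (ξ + lam A) else 0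
    have h1 : Tendsto (fun n => ∑' A, f n A) atTop (𝓝 (∑' A : Finset ℕ, H (ξ + lam A))) := by
      refine tendsto_tsum_of_dominated_convergence (bound := fun A => 2 * H (ξ + lam A))
        ((summable_H_lam ξ).mul_left 2) ?_ ?_
      · intro A
        refine (tendsto_h (ξ + lam A)).congr' ?_
        filter_upwards [eventually_ge_atTop (A.sup id + 1)] with n hn
        have : A ∈ (range n).powerset := by
          refine mem_powerset.2 fun k hk => mem_range.2 (lt_of_lt_of_le ?_ hn)
          rw [Nat.lt_succ_iff]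
          exact Finset.le_sup (f := id) hk
        simp only [f]
        rw [if_pos this]
      · have h2 : ∀ᶠ n : ℕ in atTop, |ξ| * 24 ≤ 4 ^ n := by
          have : Tendsto (fun n : ℕ => (4 : ℝ) ^ n) atTop atTop :=
            tendsto_pow_atTop_atTop_of_one_lt (by norm_num)
          exact this.eventually_ge_atTop _
        filter_upwards [h2] with n hn A
        simp only [f]
        split_ifs with hA
        · rw [Real.norm_of_nonneg (h_nonneg _ _), H_eq n]
          have h4 : (0 : ℝ) < 4 ^ n := by positivity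
          have h3 : 1 / 2 ≤ H ((ξ + lam A) / 4 ^ n) := by
            apply H_lower'
            rw [abs_div, abs_of_pos h4, div_le_iff₀ h4]
            have h5 : (3 * lam A : ℝ) < 4 ^ n := by
              have := lam_le n A (mem_powerset.1 hA)
              exact_mod_cast this
            have h6 : (0 : ℝ) ≤ lam A := by exact_mod_cast lam_nonneg A
            calc |ξ + lam A| ≤ |ξ| + |(lam A : ℝ)| := abs_add_le _ _
              _ = |ξ| + lam A := by rw [abs_of_nonneg h6]
              _ ≤ 3 / 8 * 4 ^ n := by linarith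
          have := h_nonneg n (ξ + lam A)
          nlinarith
        · rw [norm_zero]
          have := H_nonneg (ξ + lam A)
          linarith
    have h2 : ∀ n, ∑' A, f n A = 1 := by
      intro n
      rw [tsum_eq_sum (s := (range n).powerset), ← sum_h_lam n ξ]
      · refine sum_congr rfl fun A hA => ?_
        simp only [f]
        rw [if_pos hA]
      · intro A hA
        simp only [f]
        rw [if_neg hA]
    simp_rw [h2] at h1
    exact tendsto_nhds_unique h1 tendsto_const_nhds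
  rw [key, ENNReal.ofReal_one]

/-- telescoping sums -/
theorem tele (g : ℕ → ℝ) (hg : ∀ n, g (n + 1) ≤ g n) (c : ℝ) (hc : Tendsto g atTop (𝓝 c)) :
    ∑' n, ENNReal.ofReal (g n - g (n + 1)) = ENNReal.ofReal (g 0 - c) := by
  have h1 : HasSum (fun n => g n - g (n + 1)) (g 0 - c) := by
    rw [hasSum_iff_tendsto_nat_of_nonneg (fun n => sub_nonneg.2 (hg n))]
    have : ∀ n, ∑ i ∈ range n, (g i - g (i + 1)) = g 0 - g n := fun n => by
      rw [Finset.sum_range_sub']
    simp_rw [this]
    exact hc.const_sub _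
  rw [← ENNReal.ofReal_tsum_of_nonneg (fun n => sub_nonneg.2 (hg n)) h1.summable, h1.tsum_eq]

/-- the spine: `0` together with `4^j + 4^(j+1) l_j` -/
def spine {ι : ℕ → Type} (l : ∀ j, ι j → ℤ) : Unit ⊕ (Σ j, ι j) → ℤ
  | .inl _ => 0
  | .inr p => 4 ^ p.1 + 4 ^ (p.1 + 1) * l p.1 p.2

theorem spec_spine {ι : ℕ → Type} (l : ∀ j, ι j → ℤ) (hl : ∀ j, Spec (l j)) : Spec (spine l) := by
  intro ξ
  rw [Summable.tsum_sum ENNReal.summable ENNReal.summable, ENNReal.tsum_sigma']
  have h1 : ∀ j, ∑' i : ι j, ENNReal.ofReal (H (ξ + (spine l (.inr ⟨j, i⟩) : ℤ))) =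
      ENNReal.ofReal (h j ξ - h (j + 1) ξ) := by
    intro j
    rw [← h_split j ξ, add_sub_cancel_left, ← (hl j).scaled (j + 1) (ξ + 4 ^ j)]
    refine tsum_congr fun i => ?_
    congr 2
    simp only [spine]
    push_cast
    ring
  simp_rw [h1]
  rw [tele (fun n => h n ξ) (fun n => h_anti ξ (Nat.le_succ n)) (H ξ) (tendsto_h ξ)]
  simp only [spine, Int.cast_zero, add_zero, h_zero, tsum_fintype, Finset.univ_unique, Finset.sum_singleton]
  rw [← ENNReal.ofReal_add (H_nonneg ξ) (by linarith [H_le_one ξ]), add_sub_cancel, ENNReal.ofReal_one]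

/-- the family with a hole at the `2`-adic limit of `S` -/
def hole (S : ℕ → ℤ) (p : ℕ × Finset ℕ) : ℤ := S (p.1 + 1) + 4 ^ p.1 + 4 ^ (p.1 + 1) * lam p.2

theorem spec_hole_aux (S : ℕ → ℤ) (hS : ∀ n, (4 : ℤ) ^ n ∣ S (n + 1) - S n)
    (hlim : ∀ ξ : ℝ, Tendsto (fun n => h n (ξ + S n)) atTop (𝓝 0)) : Spec (hole S) := by
  intro ξ
  rw [ENNReal.tsum_prod']
  have h1 : ∀ n, ∑' A : Finset ℕ, ENNReal.ofReal (H (ξ + (hole S (n, A) : ℤ))) =
      ENNReal.ofReal (h n (ξ + S n) - h (n + 1) (ξ + S (n + 1))) := by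
    intro n
    obtain ⟨c, hc⟩ := hS n
    have h2 : h n (ξ + S n) = h n (ξ + S (n + 1)) := by
      have : (S (n + 1) : ℝ) = S n + 4 ^ n * c := by
        have : S (n + 1) = S n + 4 ^ n * c := by linarith
        rw [this]; push_cast; ring
      rw [this, ← add_assoc, h_per]
    rw [h2, ← h_split n (ξ + S (n + 1)), add_sub_cancel_left, ← spec_lam.scaled (n + 1)]
    refine tsum_congr fun i => ?_
    congr 2
    simp only [hole]
    push_cast
    ring
  simp_rw [h1]
  have h3 : ∀ n, h (n + 1) (ξ + S (n + 1)) ≤ h n (ξ + S n) := by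
    intro n
    obtain ⟨c, hc⟩ := hS n
    have h2 : h n (ξ + S n) = h n (ξ + S (n + 1)) := by
      have : (S (n + 1) : ℝ) = S n + 4 ^ n * c := by
        have : S (n + 1) = S n + 4 ^ n * c := by linarith
        rw [this]; push_cast; ring
      rw [this, ← add_assoc, h_per]
    rw [h2]
    exact h_anti _ (Nat.le_succ n)
  rw [tele (fun n => h n (ξ + S n)) h3 0 (hlim ξ), sub_zero, h_zero, ENNReal.ofReal_one]

end Pool.Agent.Q167.CN
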